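import Mathlib
import Pool.Agent.V11301.PCMain

/-!
The parity-perturbed Conway-Mallows sequence is defined for all `n`, but `b n / n` does not
tend to `1 / (2 φ)`: there are anchors `N k` with `N (k+3) = N (k+2) + N k ± const` and
`b (N (k+3)) = N k + const`, so any limit `L` would satisfy `L = (1 - L) ^ 3`.
-/

namespace Pool.Agent.Results.MP_c3a542_nt.WrongDensity

open Filter Topology Pool.Agent.V11301.PC

/-- `b` solves the recursion and every index the recursion needs is in range. -/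
def IsSeq (b : ℕ → ℤ) : Prop :=
  b 1 = 1 ∧ b 2 = 1 ∧ ∀ n : ℕ, 3 ≤ n →
    (1 ≤ b (n - 1) ∧ b (n - 1) ≤ (n : ℤ) - 1) ∧
    (1 ≤ (n : ℤ) - b (n - 1) ∧ (n : ℤ) - b (n - 1) ≤ (n : ℤ) - 1) ∧
    b n = b (b (n - 1)).toNat + b ((n : ℤ) - b (n - 1)).toNat + (-1) ^ n

/-- the sequence, with a guard -/
def seq (n : ℕ) : ℤ :=
  if _h0 : n ≤ 2 then 1
  else
    if _h : 1 ≤ seq (n - 1) ∧ seq (n - 1) ≤ (n : ℤ) - 1 then
      seq (seq (n - 1)).toNat + seq ((n : ℤ) - seq (n - 1)).toNat + (-1) ^ n
    else 0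
termination_by n
decreasing_by all_goals omega

theorem seq_small (n : ℕ) (h : n ≤ 2) : seq n = 1 := by
  rw [seq, dif_pos h]

theorem seq_rec (n : ℕ) (h : 3 ≤ n) (h1 : 1 ≤ seq (n - 1)) (h2 : seq (n - 1) ≤ (n : ℤ) - 1) :
    seq n = seq (seq (n - 1)).toNat + seq ((n : ℤ) - seq (n - 1)).toNat + (-1) ^ n := by
  rw [seq, dif_neg (by omega), dif_pos ⟨h1, h2⟩]

theorem seq_three : seq 3 = 1 := by
  have h2 : seq 2 = 1 := seq_small 2 (by norm_num)
  have h1 : seq 1 = 1 := seq_small 1 (by norm_num)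
  have := seq_rec 3 le_rfl (by rw [show 3 - 1 = 2 from rfl, h2]) (by
    rw [show 3 - 1 = 2 from rfl, h2]; norm_num)
  rw [show 3 - 1 = 2 from rfl, h2] at this
  rw [this]
  have e1 : (1 : ℤ).toNat = 1 := rfl
  have e2 : (((3 : ℕ) : ℤ) - 1).toNat = 2 := rfl
  rw [e1, e2, h1, h2]; norm_num

theorem seq_four : seq 4 = 3 := by
  have h3 := seq_three
  have h1 : seq 1 = 1 := seq_small 1 (by norm_num)
  have := seq_rec 4 (by norm_num) (by rw [show 4 - 1 = 3 from rfl, h3]) (by
    rw [show 4 - 1 = 3 from rfl, h3]; norm_num)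
  rw [show 4 - 1 = 3 from rfl, h3] at this
  rw [this]
  have e1 : (1 : ℤ).toNat = 1 := rfl
  have e2 : (((4 : ℕ) : ℤ) - 1).toNat = 3 := rfl
  rw [e1, e2, h1, h3]; norm_num

theorem seq_main : ∀ n : ℕ, 1 ≤ n →
    (1 ≤ seq n ∧ seq n ≤ n) ∧ (3 ≤ n → seq n = seq (n - 2) ∨ seq n = seq (n - 2) + 2) := by
  intro n
  induction n using Nat.strong_induction_on with
  | _ n ih =>
    intro hn
    rcases Nat.lt_or_ge n 5 with h5 | h5
    · interval_cases n
      · rw [seq_small 1 (by norm_num)]; norm_num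
      · rw [seq_small 2 (by norm_num)]; norm_num
      · rw [seq_three]; norm_num; left; rw [seq_small 1 (by norm_num)]
      · rw [seq_four]; norm_num; right; rw [seq_small 2 (by norm_num)]; norm_num
    · obtain ⟨⟨a1, a2⟩, a3⟩ := ih (n - 1) (by omega) (by omega)
      obtain ⟨⟨b1, b2⟩, b3⟩ := ih (n - 2) (by omega) (by omega)
      obtain ⟨⟨c1, c2⟩, c3⟩ := ih (n - 3) (by omega) (by omega)
      have r1 := seq_rec n (by omega) a1 (by omega)
      have r2 := seq_rec (n - 2) (by omega) (by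
        rw [show n - 2 - 1 = n - 3 by omega]; exact c1) (by
        rw [show n - 2 - 1 = n - 3 by omega]; omega)
      rw [show n - 2 - 1 = n - 3 by omega] at r2
      have hpow : ((-1 : ℤ)) ^ n = (-1) ^ (n - 2) := by
        obtain ⟨m, rfl⟩ : ∃ m, n = m + 2 := ⟨n - 2, by omega⟩
        rw [pow_add]; norm_num
      have key : seq n = seq (n - 2) ∨ seq n = seq (n - 2) + 2 := by
        have a3' := a3 (by omega)
        rw [show n - 1 - 2 = n - 3 by omega] at a3'
        rcases a3' with h | h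
        · rw [h] at r1
          have hs := (ih (((n : ℕ) : ℤ) - seq (n - 3)).toNat (by omega) (by omega)).2 (by omega)
          have e : (((n : ℕ) : ℤ) - seq (n - 3)).toNat - 2
              = (((n - 2 : ℕ) : ℤ) - seq (n - 3)).toNat := by omega
          rw [e] at hs
          rw [r1, r2, hpow]
          rcases hs with hs | hs <;> rw [hs] <;> omega
        · rw [h] at r1
          have hs := (ih (seq (n - 3) + 2).toNat (by omega) (by omega)).2 (by omega)
          have e : (seq (n - 3) + 2).toNat - 2 = (seq (n - 3)).toNat := by omega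
          rw [e] at hs
          have e' : (((n : ℕ) : ℤ) - (seq (n - 3) + 2)).toNat
              = (((n - 2 : ℕ) : ℤ) - seq (n - 3)).toNat := by omega
          rw [e'] at r1
          rw [r1, r2, hpow]
          rcases hs with hs | hs <;> rw [hs] <;> omega
      refine ⟨?_, fun _ => key⟩
      rcases key with h | h <;> rw [h] <;> constructor <;> omega

theorem seq_isSeq : IsSeq seq := by
  refine ⟨seq_small 1 (by norm_num), seq_small 2 (by norm_num), ?_⟩
  intro n hn
  obtain ⟨⟨a1, a2⟩, -⟩ := seq_main (n - 1) (by omega)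
  have a3 : seq (n - 1) ≤ (n : ℤ) - 1 := by omega
  exact ⟨⟨a1, a3⟩, ⟨by omega, by omega⟩, seq_rec n hn a1 a3⟩

theorem good_of_isSeq {b : ℕ → ℤ} (hb : IsSeq b) : Good (fun z : ℤ => b z.toNat) := by
  obtain ⟨h1, h2, h3⟩ := hb
  have hrange : ∀ n : ℕ, 1 ≤ n → 1 ≤ b n ∧ b n ≤ n := by
    intro n hn
    rcases Nat.lt_or_ge n 2 with h | h
    · have : n = 1 := by omega
      subst this; rw [h1]; norm_num
    · obtain ⟨⟨a1, a2⟩, -⟩ := h3 (n + 1) (by omega)
      rw [show n + 1 - 1 = n by omega] at a1 a2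
      refine ⟨a1, by push_cast at a2; omega⟩
  have hrec : ∀ n : ℕ, 3 ≤ n →
      b n = b (b (n - 1)).toNat + b ((n : ℤ) - b (n - 1)).toNat + sg n := by
    intro n hn
    obtain ⟨-, -, h⟩ := h3 n hn
    rw [h]
    congr 1
    rcases Nat.even_or_odd n with he | ho
    · rw [he.neg_one_pow, sg_even]; obtain ⟨m, hm⟩ := he; omega
    · rw [ho.neg_one_pow, sg_odd]; obtain ⟨m, hm⟩ := ho; omega
  have hodd : ∀ n : ℕ, 1 ≤ n → b n % 2 = 1 := by
    intro n
    induction n using Nat.strong_induction_on with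
    | _ n ih =>
      intro hn
      rcases Nat.lt_or_ge n 3 with h | h
      · have : n = 1 ∨ n = 2 := by omega
        rcases this with rfl | rfl
        · rw [h1]; rfl
        · rw [h2]; rfl
      · obtain ⟨⟨a1, a2⟩, ⟨a3, a4⟩, -⟩ := h3 n h
        rw [hrec n h]
        have i1 := ih (b (n - 1)).toNat (by omega) (by omega)
        have i2 := ih ((n : ℤ) - b (n - 1)).toNat (by omega) (by omega)
        rcases sg_cases (n : ℤ) with hs | hs <;> rw [hs] <;> omega
  refine ⟨h1, h2, ?_, ?_, ?_, ?_⟩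
  · intro n hn
    obtain ⟨m, rfl⟩ : ∃ m : ℕ, n = m := ⟨n.toNat, by omega⟩
    have hm := hrec m (by omega)
    have e : ((m : ℤ) - 1).toNat = m - 1 := by omega
    show b (m : ℤ).toNat = b (b ((m : ℤ) - 1).toNat).toNat
      + b ((m : ℤ) - b ((m : ℤ) - 1).toNat).toNat + sg m
    rw [e, Int.toNat_natCast]
    exact hm
  · intro n hn; exact (hrange n.toNat (by omega)).1
  · intro n hn
    have := (hrange n.toNat (by omega)).2
    show b n.toNat ≤ n
    omega
  · intro n hn; exact hodd n.toNat (by omega)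

theorem N_large : ∀ k : ℕ, (k : ℤ) + 1000 ≤ N k := by
  intro k
  induction k using Nat.strong_induction_on with
  | _ k ih =>
    match k, ih with
    | 0, _ => rw [N_zero]; norm_num
    | 1, _ => rw [N_one]; norm_num
    | 2, _ => rw [N_two]; norm_num
    | k + 3, ih =>
      have e := N3 k
      have h1 := ih (k + 2) (by omega)
      have h2 := ih k (by omega)
      rcases dl_cases (tp k) with h | h <;> push_cast at * <;> omega

theorem limit_eq {b : ℕ → ℤ} (hb : IsSeq b) (L : ℝ)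
    (hL : Tendsto (fun n : ℕ => (b n : ℝ) / n) atTop (𝓝 L)) : (1 - L) ^ 3 = L := by
  have hg := good_of_isSeq hb
  -- anchors as natural numbers
  have hNpos : ∀ k : ℕ, (0 : ℝ) < (N k : ℝ) := by
    intro k
    have := N_large k
    have h : (0 : ℤ) < N k := by omega
    exact_mod_cast h
  have hNtop : Tendsto (fun k : ℕ => (N k).toNat) atTop atTop := by
    apply tendsto_atTop_mono (f := fun k : ℕ => k) _ tendsto_id
    intro k
    have := N_large k
    omega
  have hNtopR : Tendsto (fun k : ℕ => (N k : ℝ)) atTop atTop := by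
    apply tendsto_atTop_mono (f := fun k : ℕ => (k : ℝ)) _ tendsto_natCast_atTop_atTop
    intro k
    have := N_large k
    have h : (k : ℤ) ≤ N k := by omega
    exact_mod_cast h
  -- ratio of anchors three apart
  have hr : Tendsto (fun k : ℕ => (N k : ℝ) / N (k + 3)) atTop (𝓝 L) := by
    have h1 : Tendsto (fun k : ℕ => (b (N (k + 3)).toNat : ℝ) / ((N (k + 3)).toNat : ℝ))
        atTop (𝓝 L) :=
      hL.comp (hNtop.comp (tendsto_add_atTop_nat 3))
    have h2 : Tendsto (fun k : ℕ => (7 : ℝ) / N (k + 3)) atTop (𝓝 0) :=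
      (hNtopR.comp (tendsto_add_atTop_nat 3)).const_div_atTop 7
    have h3 : Tendsto (fun k : ℕ => ((cond (tp k) 7 (-5) : ℤ) : ℝ) / N (k + 3)) atTop (𝓝 0) := by
      apply squeeze_zero_norm _ h2
      intro k
      have hp := hNpos (k + 3)
      rw [Real.norm_eq_abs, abs_div, abs_of_pos hp]
      apply div_le_div_of_nonneg_right _ hp.le
      cases tp k <;> norm_num
    have h4 := h1.sub h3
    rw [sub_zero] at h4
    refine h4.congr ?_
    intro k
    have ha := anchor hg k
    have hl := N_large (k + 3)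
    have e : (((N (k + 3)).toNat : ℕ) : ℝ) = (N (k + 3) : ℝ) := by
      have : (((N (k + 3)).toNat : ℕ) : ℤ) = N (k + 3) := by omega
      exact_mod_cast this
    have ha' : b (N (k + 3)).toNat = N k + cond (tp k) 7 (-5) := ha
    rw [e, ha']
    push_cast
    ring
  -- ratio of consecutive anchors
  have hq : Tendsto (fun k : ℕ => (N (k + 2) : ℝ) / N (k + 3)) atTop (𝓝 (1 - L)) := by
    have h2 : Tendsto (fun k : ℕ => (14 : ℝ) / N (k + 3)) atTop (𝓝 0) :=
      (hNtopR.comp (tendsto_add_atTop_nat 3)).const_div_atTop 14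
    have h3 : Tendsto (fun k : ℕ => ((dl (tp k) : ℤ) : ℝ) / N (k + 3)) atTop (𝓝 0) := by
      apply squeeze_zero_norm _ h2
      intro k
      have hp := hNpos (k + 3)
      rw [Real.norm_eq_abs, abs_div, abs_of_pos hp]
      apply div_le_div_of_nonneg_right _ hp.le
      rcases dl_cases (tp k) with h | h <;> rw [h] <;> norm_num
    have h4 := (tendsto_const_nhds (x := (1 : ℝ))).sub hr |>.sub h3
    rw [sub_zero] at h4
    refine h4.congr ?_
    intro k
    have hp := hNpos (k + 3)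
    have e : (N (k + 3) : ℝ) = N (k + 2) + N k + dl (tp k) := by exact_mod_cast N3 k
    field_simp
    linarith
  have hq1 : Tendsto (fun k : ℕ => (N k : ℝ) / N (k + 1)) atTop (𝓝 (1 - L)) :=
    (tendsto_add_atTop_iff_nat 2).mp hq
  have hprod : Tendsto (fun k : ℕ => ((N k : ℝ) / N (k + 1)) * ((N (k + 1) : ℝ) / N (k + 2)) *
      ((N (k + 2) : ℝ) / N (k + 3))) atTop (𝓝 ((1 - L) * (1 - L) * (1 - L))) :=
    (hq1.mul (hq1.comp (tendsto_add_atTop_nat 1))).mul (hq1.comp (tendsto_add_atTop_nat 2))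
  have hprod' : Tendsto (fun k : ℕ => (N k : ℝ) / N (k + 3)) atTop
      (𝓝 ((1 - L) * (1 - L) * (1 - L))) := by
    refine hprod.congr ?_
    intro k
    have p0 := hNpos k
    have p1 := hNpos (k + 1)
    have p2 := hNpos (k + 2)
    have p3 := hNpos (k + 3)
    field_simp
  have h5 := tendsto_nhds_unique hr hprod'
  calc (1 - L) ^ 3 = (1 - L) * (1 - L) * (1 - L) := by ring
    _ = L := h5.symm

theorem seq_unique {b b' : ℕ → ℤ} (hb : IsSeq b) (hb' : IsSeq b') :
    ∀ n : ℕ, 1 ≤ n → b n = b' n := by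
  intro n
  induction n using Nat.strong_induction_on with
  | _ n ih =>
    intro hn
    obtain ⟨h1, h2, h3⟩ := hb
    obtain ⟨h1', h2', h3'⟩ := hb'
    rcases Nat.lt_or_ge n 3 with h | h
    · have : n = 1 ∨ n = 2 := by omega
      rcases this with rfl | rfl
      · rw [h1, h1']
      · rw [h2, h2']
    · obtain ⟨⟨a1, a2⟩, ⟨a3, a4⟩, a5⟩ := h3 n h
      obtain ⟨-, -, c5⟩ := h3' n h
      have e := ih (n - 1) (by omega) (by omega)
      rw [← e] at c5
      rw [a5, c5, ih (b (n - 1)).toNat (by omega) (by omega),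
        ih ((n : ℤ) - b (n - 1)).toNat (by omega) (by omega)]

theorem N_lt_succ (k : ℕ) : N k < N (k + 1) := by
  match k with
  | 0 => rw [N_zero, show 0 + 1 = 1 from rfl, N_one]; norm_num
  | 1 => rw [N_one, show 1 + 1 = 2 from rfl, N_two]; norm_num
  | k + 2 =>
    have e : N (k + 2 + 1) = N (k + 2) + N k + dl (tp k) := N3 k
    have h1 := N_large k
    rw [e]
    rcases dl_cases (tp k) with h | h <;> omega

/-- The recursion `b 1 = b 2 = 1`, `b n = b (b (n-1)) + b (n - b (n-1)) + (-1)^n` is defined for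
all `n` (existence and uniqueness), `b n / n` does not tend to `1 / (2 φ)`, and the only possible
limits `L` of `b n / n` satisfy `(1 - L)^3 = L`. Moreover there is a strictly increasing sequence
of anchors on which `b` is known exactly. -/
theorem result :
    (∃ b : ℕ → ℤ, IsSeq b) ∧
    (∀ b b' : ℕ → ℤ, IsSeq b → IsSeq b' → ∀ n : ℕ, 1 ≤ n → b n = b' n) ∧
    ∀ b : ℕ → ℤ, IsSeq b →
      ¬ Tendsto (fun n : ℕ => (b n : ℝ) / n) atTop (𝓝 (1 / (2 * Real.goldenRatio))) ∧
      (∀ L : ℝ, Tendsto (fun n : ℕ => (b n : ℝ) / n) atTop (𝓝 L) → (1 - L) ^ 3 = L) ∧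
      ∃ N : ℕ → ℕ, StrictMono N ∧ ∀ k : ℕ,
        (N (k + 3) : ℤ) = N (k + 2) + N k + (if k % 2 = 0 then 12 else -14) ∧
        b (N (k + 3)) = N k + (if k % 2 = 0 then 7 else -5) := by
  refine ⟨⟨seq, seq_isSeq⟩, fun b b' h h' => seq_unique h h', ?_⟩
  intro b hb
  have hcast : ∀ k : ℕ, (((N k).toNat : ℕ) : ℤ) = N k := by
    intro k; have := N_large k; omega
  refine ⟨?_, fun L hL => limit_eq hb L hL, fun k => (N k).toNat, ?_, ?_⟩
  rotate_left
  · apply strictMono_nat_of_lt_succ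
    intro k
    have h1 := N_lt_succ k
    have h2 := N_large k
    show (N k).toNat < (N (k + 1)).toNat
    omega
  · intro k
    show (((N (k + 3)).toNat : ℕ) : ℤ) = (((N (k + 2)).toNat : ℕ) : ℤ) + (((N k).toNat : ℕ) : ℤ)
      + (if k % 2 = 0 then 12 else -14) ∧
      b (N (k + 3)).toNat = (((N k).toNat : ℕ) : ℤ) + (if k % 2 = 0 then 7 else -5)
    rw [hcast, hcast, hcast]
    have ha : b (N (k + 3)).toNat = N k + cond (tp k) 7 (-5) := anchor (good_of_isSeq hb) k
    have h3 := N3 k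
    rw [ha, h3]
    unfold tp
    rcases Nat.mod_two_eq_zero_or_one k with h | h
    · simp [h, dl]
    · simp [h, dl]
  intro hL
  have h := limit_eq hb _ hL
  have h5 : Real.sqrt 5 ^ 2 = 5 := Real.sq_sqrt (by norm_num)
  have hs : 2 < Real.sqrt 5 := by
    rw [show (2 : ℝ) = Real.sqrt 4 by
      rw [show (4 : ℝ) = 2 ^ 2 by norm_num, Real.sqrt_sq (by norm_num)]]
    exact Real.sqrt_lt_sqrt (by norm_num) (by norm_num)
  have hx : (1 : ℝ) / (2 * Real.goldenRatio) = (Real.sqrt 5 - 1) / 4 := by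
    unfold Real.goldenRatio
    rw [div_eq_div_iff (by linarith) (by norm_num)]
    nlinarith
  rw [hx] at h
  have h9 : Real.sqrt 5 = 9 / 4 := by nlinarith
  rw [h9] at h5
  norm_num at h5

end Pool.Agent.Results.MP_c3a542_nt.WrongDensity
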